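import Pool.Agent.helper71.EP.SpecE

set_option autoImplicit false

open Finset
open scoped Real
open Pool.Agent.helper74.TG

noncomputable section

namespace Pool.Agent.EP

theorem EQ4_hq (m t : ℕ) : m * hq m t + 3 = 3 * (m * t + 1) ^ 2 := by
  unfold hq; ring

theorem EQ4_sq {m t₁ t₂ t₃ t₄ : ℕ} (h : hq m t₁ + hq m t₂ = hq m t₃ + hq m t₄) :
    (m * t₁ + 1) ^ 2 + (m * t₂ + 1) ^ 2 = (m * t₃ + 1) ^ 2 + (m * t₄ + 1) ^ 2 := by
  have h1 := EQ4_hq m t₁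
  have h2 := EQ4_hq m t₂
  have h3 := EQ4_hq m t₃
  have h4 := EQ4_hq m t₄
  have h5 : m * hq m t₁ + m * hq m t₂ = m * hq m t₃ + m * hq m t₄ := by
    rw [← mul_add, ← mul_add, h]
  omega

/-- The quadruples with `t₁ > t₃`. -/
theorem EQ4_B (m T : ℕ) (hm : 1 ≤ m) :
    #{v ∈ Qd m T | v.2.1 < v.1.1} ≤
      #{v ∈ (Ioc 0 (2 * (m * T + 1)) ×ˢ Ioc 0 (2 * (m * T + 1))) ×ˢ
        (Ioc 0 (2 * (m * T + 1)) ×ˢ Ioc 0 (2 * (m * T + 1))) | v.1.1 * v.2.1 = v.1.2 * v.2.2} := by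
  refine Finset.card_le_card_of_injOn (fun v => (((m * v.1.1 + 1) - (m * v.2.1 + 1),
    (m * v.2.2 + 1) - (m * v.1.2 + 1)), ((m * v.1.1 + 1) + (m * v.2.1 + 1),
    (m * v.2.2 + 1) + (m * v.1.2 + 1)))) ?_ ?_
  · rintro ⟨⟨t1, t2⟩, ⟨t3, t4⟩⟩ hv
    simp only [Finset.coe_filter, Qd, Finset.mem_filter, Finset.mem_product, Finset.mem_Ioc,
      Set.mem_setOf_eq] at hv ⊢
    obtain ⟨⟨⟨⟨⟨h1, h1'⟩, h2, h2'⟩, ⟨h3, h3'⟩, h4, h4'⟩, he⟩, hlt⟩ := hv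
    have hs := EQ4_sq he
    have hlt' : m * t3 < m * t1 := Nat.mul_lt_mul_of_pos_left hlt (by omega)
    have h24 : m * t2 + 1 < m * t4 + 1 := by
      by_contra hc
      push Not at hc
      have h5 : (m * t4 + 1) ^ 2 ≤ (m * t2 + 1) ^ 2 := Nat.pow_le_pow_left hc 2
      have h6 : (m * t3 + 1) ^ 2 < (m * t1 + 1) ^ 2 := Nat.pow_lt_pow_left (by omega) (by norm_num)
      omega
    have b1 : m * t1 ≤ m * T := Nat.mul_le_mul_left m h1'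
    have b3 : m * t3 ≤ m * T := Nat.mul_le_mul_left m h3'
    have b4 : m * t4 ≤ m * T := Nat.mul_le_mul_left m h4'
    refine ⟨⟨⟨⟨by omega, by omega⟩, by omega, by omega⟩, ⟨by omega, by omega⟩, by omega,
      by omega⟩, ?_⟩
    have e1 : ((m * t1 + 1) - (m * t3 + 1)) * ((m * t1 + 1) + (m * t3 + 1)) + (m * t3 + 1) ^ 2 =
        (m * t1 + 1) ^ 2 := by
      obtain ⟨k, hk⟩ : ∃ k, m * t1 + 1 = (m * t3 + 1) + k := ⟨m * t1 - m * t3, by omega⟩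
      rw [hk, Nat.add_sub_cancel_left]; ring
    have e2 : ((m * t4 + 1) - (m * t2 + 1)) * ((m * t4 + 1) + (m * t2 + 1)) + (m * t2 + 1) ^ 2 =
        (m * t4 + 1) ^ 2 := by
      obtain ⟨k, hk⟩ : ∃ k, m * t4 + 1 = (m * t2 + 1) + k := ⟨m * t4 - m * t2, by omega⟩
      rw [hk, Nat.add_sub_cancel_left]; ring
    omega
  · rintro ⟨⟨t1, t2⟩, ⟨t3, t4⟩⟩ hv ⟨⟨s1, s2⟩, ⟨s3, s4⟩⟩ hw heq
    simp only [Finset.coe_filter, Qd, Finset.mem_filter, Finset.mem_product, Finset.mem_Ioc,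
      Set.mem_setOf_eq] at hv hw
    simp only [Prod.mk.injEq] at heq
    obtain ⟨⟨e1, e2⟩, e3, e4⟩ := heq
    have hlt : m * t3 < m * t1 := Nat.mul_lt_mul_of_pos_left hv.2 (by omega)
    have hlt' : m * s3 < m * s1 := Nat.mul_lt_mul_of_pos_left hw.2 (by omega)
    have key : ∀ t1 t2 t3 t4 : ℕ, hq m t1 + hq m t2 = hq m t3 + hq m t4 → m * t3 < m * t1 →
        m * t2 + 1 < m * t4 + 1 := by
      intro t1 t2 t3 t4 he hlt
      have hs := EQ4_sq he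
      by_contra hc
      push Not at hc
      have h5 : (m * t4 + 1) ^ 2 ≤ (m * t2 + 1) ^ 2 := Nat.pow_le_pow_left hc 2
      have h6 : (m * t3 + 1) ^ 2 < (m * t1 + 1) ^ 2 := Nat.pow_lt_pow_left (by omega) (by norm_num)
      omega
    have k1 := key t1 t2 t3 t4 hv.1.2 hlt
    have k2 := key s1 s2 s3 s4 hw.1.2 hlt'
    have f1 : m * t1 = m * s1 := by omega
    have f2 : m * t2 = m * s2 := by omega
    have f3 : m * t3 = m * s3 := by omega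
    have f4 : m * t4 = m * s4 := by omega
    have hm' : 0 < m := by omega
    rw [Nat.eq_of_mul_eq_mul_left hm' f1, Nat.eq_of_mul_eq_mul_left hm' f2,
      Nat.eq_of_mul_eq_mul_left hm' f3, Nat.eq_of_mul_eq_mul_left hm' f4]

/-- The quadruples with `t₁ < t₃`. -/
theorem EQ4_C (m T : ℕ) :
    #{v ∈ Qd m T | v.1.1 < v.2.1} ≤ #{v ∈ Qd m T | v.2.1 < v.1.1} := by
  refine Finset.card_le_card_of_injOn (fun v => (v.2, v.1)) ?_ ?_
  · rintro ⟨⟨t1, t2⟩, ⟨t3, t4⟩⟩ hv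
    simp only [Finset.coe_filter, Qd, Finset.mem_filter, Finset.mem_product, Finset.mem_Ioc,
      Set.mem_setOf_eq] at hv ⊢
    obtain ⟨⟨⟨h1, h2⟩, he⟩, hlt⟩ := hv
    exact ⟨⟨⟨h2, h1⟩, he.symm⟩, hlt⟩
  · rintro ⟨⟨t1, t2⟩, ⟨t3, t4⟩⟩ hv ⟨⟨s1, s2⟩, ⟨s3, s4⟩⟩ hw heq
    simp only [Prod.mk.injEq] at heq ⊢
    exact ⟨heq.2, heq.1⟩

/-- The quadruples with `t₁ = t₃`. -/
theorem EQ4_A (m T : ℕ) : #{v ∈ Qd m T | v.1.1 = v.2.1} ≤ T ^ 2 := by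
  have h : #{v ∈ Qd m T | v.1.1 = v.2.1} ≤ #(Ioc 0 T ×ˢ Ioc 0 T) := by
    refine Finset.card_le_card_of_injOn (fun v => v.1) ?_ ?_
    · rintro ⟨⟨t1, t2⟩, ⟨t3, t4⟩⟩ hv
      simp only [Finset.coe_filter, Qd, Finset.mem_filter, Finset.mem_product, Finset.mem_Ioc,
        Set.mem_setOf_eq, Finset.coe_product, Set.mem_prod, Finset.mem_coe] at hv ⊢
      exact hv.1.1.1
    · rintro ⟨⟨t1, t2⟩, ⟨t3, t4⟩⟩ hv ⟨⟨s1, s2⟩, ⟨s3, s4⟩⟩ hw heq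
      simp only [Finset.coe_filter, Qd, Finset.mem_filter, Finset.mem_product, Finset.mem_Ioc,
        Set.mem_setOf_eq] at hv hw
      simp only [Prod.mk.injEq] at heq ⊢
      obtain ⟨rfl, rfl⟩ := heq
      obtain ⟨⟨_, he⟩, hlt⟩ := hv
      obtain ⟨⟨_, he'⟩, hlt'⟩ := hw
      refine ⟨⟨rfl, rfl⟩, ?_, ?_⟩
      · rw [← hlt, hlt']
      · rw [← hlt] at he
        rw [← hlt'] at he'
        have h1 : hq m t4 = hq m s4 := by omega
        have hmono : ∀ a b : ℕ, a < b → hq m a < hq m b := by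
          intro a b hab
          unfold hq
          have : a ^ 2 ≤ b ^ 2 := Nat.pow_le_pow_left hab.le 2
          have : 3 * m * a ^ 2 ≤ 3 * m * b ^ 2 := Nat.mul_le_mul_left _ this
          omega
        rcases lt_trichotomy t4 s4 with h2 | h2 | h2
        · have := hmono _ _ h2; omega
        · exact h2
        · have := hmono _ _ h2; omega
  rw [Finset.card_product, Nat.card_Ioc] at h
  rw [sq]
  simpa using h

theorem EQ4 (hEM4 : EM4_stmt) : EQ4_stmt := by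
  intro m T hm
  set Z : ℕ := 2 * (m * T + 1) with hZ
  have hZ1 : 1 ≤ Z := by omega
  have hM := hEM4 Z hZ1
  have h1 := EQ4_A m T
  have h2 := EQ4_B m T hm
  have h3 := EQ4_C m T
  have hsplit : #(Qd m T) ≤ #{v ∈ Qd m T | v.1.1 = v.2.1} + #{v ∈ Qd m T | v.2.1 < v.1.1} +
      #{v ∈ Qd m T | v.1.1 < v.2.1} := by
    have hsub : Qd m T ⊆ ({v ∈ Qd m T | v.1.1 = v.2.1} ∪ {v ∈ Qd m T | v.2.1 < v.1.1}) ∪
      {v ∈ Qd m T | v.1.1 < v.2.1} := by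
      intro v hv
      simp only [Finset.mem_union, Finset.mem_filter]
      rcases lt_trichotomy v.1.1 v.2.1 with h | h | h
      · exact Or.inr ⟨hv, h⟩
      · exact Or.inl (Or.inl ⟨hv, h⟩)
      · exact Or.inl (Or.inr ⟨hv, h⟩)
    calc #(Qd m T) ≤ _ := Finset.card_le_card hsub
      _ ≤ _ := (Finset.card_union_le _ _).trans (Nat.add_le_add_right (Finset.card_union_le _ _) _)
  rw [← hZ] at h2
  have hTZ : (T : ℝ) ≤ Z := by
    have : T ≤ Z := by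
      have : T ≤ m * T := Nat.le_mul_of_pos_left T (by omega)
      omega
    exact_mod_cast this
  have hZr : (1 : ℝ) ≤ Z := by exact_mod_cast hZ1
  have hlog : 0 ≤ Real.log Z := Real.log_nonneg hZr
  have h4 : (#(Qd m T) : ℝ) ≤ T ^ 2 + 2 * #{v ∈ (Ioc 0 Z ×ˢ Ioc 0 Z) ×ˢ (Ioc 0 Z ×ˢ Ioc 0 Z) |
      v.1.1 * v.2.1 = v.1.2 * v.2.2} := by
    have : #(Qd m T) ≤ T ^ 2 + 2 * #{v ∈ (Ioc 0 Z ×ˢ Ioc 0 Z) ×ˢ (Ioc 0 Z ×ˢ Ioc 0 Z) |
      v.1.1 * v.2.1 = v.1.2 * v.2.2} := by omega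
    exact_mod_cast this
  have h5 : (T : ℝ) ^ 2 ≤ (Z : ℝ) ^ 2 := pow_le_pow_left₀ (Nat.cast_nonneg T) hTZ 2
  have h6 : (Z : ℝ) ^ 2 ≤ (Z : ℝ) ^ 2 * (1 + Real.log Z) :=
    le_mul_of_one_le_right (by positivity) (by linarith)
  nlinarith

end Pool.Agent.EP
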