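import Pool.Agent.helper7.EP.SpecB

set_option autoImplicit false

open Finset PowerSeries

noncomputable section

namespace Pool.Agent.EP

/-- The residues. -/
theorem RTY_res (q w w0 : ℕ) (hq : 0 < q) (hw : w < 2 * q)
    (h : (q : ℤ) ∣ (w : ℤ) - w0 ∨ (q : ℤ) ∣ (w : ℤ) + w0) :
    w ∈ ({w0 % q, w0 % q + q, q - w0 % q, 2 * q - w0 % q} : Finset ℕ) := by
  have hx : w % q < q := Nat.mod_lt _ hq
  have hy : w0 % q < q := Nat.mod_lt _ hq
  have hdm := Nat.div_add_mod w q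
  have hd2 : w / q < 2 := Nat.div_lt_of_lt_mul (by rw [mul_comm]; exact hw)
  have hwx : w = w % q ∨ w = w % q + q := by
    have h01 : ∀ t : ℕ, t < 2 → t = 0 ∨ t = 1 := fun t ht => by omega
    rcases h01 _ hd2 with h0 | h0
    · rw [h0, mul_zero, zero_add] at hdm
      exact Or.inl hdm.symm
    · rw [h0, mul_one] at hdm
      right; omega
  simp only [Finset.mem_insert, Finset.mem_singleton]
  rcases h with h | h
  · have h1 : w % q = w0 % q := by
      have h2 : (w0 : ℤ) ≡ (w : ℤ) [ZMOD (q : ℤ)] := (Int.modEq_iff_dvd).2 h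
      have h3 : w0 ≡ w [MOD q] := (Int.natCast_modEq_iff).1 h2
      exact h3.symm
    omega
  · have h1 : q ∣ w + w0 := by exact_mod_cast h
    have h2 : q ∣ w % q + w0 % q := by
      have h3 := Nat.dvd_sub h1 (Dvd.intro (w / q + w0 / q) rfl : q ∣ q * (w / q + w0 / q))
      have h4 : w + w0 - q * (w / q + w0 / q) = w % q + w0 % q := by
        have h5 := Nat.div_add_mod w0 q
        rw [mul_add]
        omega
      rwa [h4] at h3
    obtain ⟨c, hc⟩ := h2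
    have hc2 : c < 2 := by
      by_contra hcc
      have : q * 2 ≤ q * c := Nat.mul_le_mul_left q (by omega)
      omega
    have : c = 0 ∨ c = 1 := by omega
    rcases this with rfl | rfl
    · omega
    · omega

/-- At most four pairs for given `j`, `n`. -/
theorem RTY_four (hSQ : SQ_stmt) (a j n0 : ℕ) (ha : 3 ≤ a) (G : Finset (ℕ × ℕ))
    (hG : ∀ x ∈ G, x.1 ∈ PK a ∧ x.2 = n0 ∧ ∃ w ∈ ws (x.1 * 2 ^ a), x.1 * 2 ^ a - 3 * w ^ 2 = j) :
    #G ≤ 4 := by
  rcases G.eq_empty_or_nonempty with rfl | ⟨x0, hx0⟩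
  · simp
  obtain ⟨hk0, -, w0, hw0, hj0⟩ := hG x0 hx0
  obtain ⟨b, rfl⟩ : ∃ b, a = b + 3 := ⟨a - 3, by omega⟩
  have hsub : G ⊆ ({w0 % 2 ^ (b + 2), w0 % 2 ^ (b + 2) + 2 ^ (b + 2), 2 ^ (b + 2) - w0 % 2 ^ (b + 2),
      2 * 2 ^ (b + 2) - w0 % 2 ^ (b + 2)} : Finset ℕ).image
        (fun w => ((j + 3 * w ^ 2) / 2 ^ (b + 3), n0)) := by
    intro x hx
    obtain ⟨hk, hn, w, hw, hj⟩ := hG x hx
    rw [Finset.mem_image]
    refine ⟨w, ?_, ?_⟩
    · have hwq : w < 2 * 2 ^ (b + 2) := by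
        have h1 : 3 * w ^ 2 < x.1 * 2 ^ (b + 3) := (Finset.mem_filter.1 hw).2.2
        have h2 : x.1 ≤ 2 * 2 ^ (b + 3) := (Finset.mem_Ioc.1 (Finset.mem_filter.1 hk).1).2
        have h3 : x.1 * 2 ^ (b + 3) ≤ 2 * 2 ^ (b + 3) * 2 ^ (b + 3) := Nat.mul_le_mul_right _ h2
        have h4 : 2 * 2 ^ (b + 2) = 2 ^ (b + 3) := by ring
        rw [h4]
        by_contra hc
        push Not at hc
        have h5 : (2 ^ (b + 3)) ^ 2 ≤ w ^ 2 := Nat.pow_le_pow_left hc 2
        have h6 : 0 < (2 ^ (b + 3)) ^ 2 := by positivity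
        have h7 : 2 * 2 ^ (b + 3) * 2 ^ (b + 3) = 2 * (2 ^ (b + 3)) ^ 2 := by ring
        omega
      refine RTY_res (2 ^ (b + 2)) w w0 (by positivity) hwq ?_
      have hodd : w % 2 = 1 := (Finset.mem_filter.1 hw).2.1
      have hodd0 : w0 % 2 = 1 := (Finset.mem_filter.1 hw0).2.1
      have h1 : 3 * w ^ 2 < x.1 * 2 ^ (b + 3) := (Finset.mem_filter.1 hw).2.2
      have h10 : 3 * w0 ^ 2 < x0.1 * 2 ^ (b + 3) := (Finset.mem_filter.1 hw0).2.2
      have hdvd : (2 : ℤ) ^ (b + 3) ∣ (w : ℤ) ^ 2 - (w0 : ℤ) ^ 2 := by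
        have e1 : (x.1 : ℤ) * 2 ^ (b + 3) - 3 * (w : ℤ) ^ 2 = j := by
          have : x.1 * 2 ^ (b + 3) = j + 3 * w ^ 2 := by omega
          have h' : (x.1 : ℤ) * 2 ^ (b + 3) = j + 3 * (w : ℤ) ^ 2 := by exact_mod_cast this
          linarith
        have e2 : (x0.1 : ℤ) * 2 ^ (b + 3) - 3 * (w0 : ℤ) ^ 2 = j := by
          have : x0.1 * 2 ^ (b + 3) = j + 3 * w0 ^ 2 := by omega
          have h' : (x0.1 : ℤ) * 2 ^ (b + 3) = j + 3 * (w0 : ℤ) ^ 2 := by exact_mod_cast this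
          linarith
        have e3 : (2 : ℤ) ^ (b + 3) ∣ 3 * ((w : ℤ) ^ 2 - (w0 : ℤ) ^ 2) := by
          refine ⟨(x.1 : ℤ) - x0.1, ?_⟩
          linear_combination e2 - e1
        have hcop : IsCoprime ((2 : ℤ) ^ (b + 3)) 3 := by
          apply IsCoprime.pow_left
          exact ⟨-1, 1, by norm_num⟩
        exact hcop.dvd_of_dvd_mul_left e3
      have h2 := (hSQ.2 b (w : ℤ) (w0 : ℤ) (by omega) (by omega)).1 hdvd
      have e : ((2 ^ (b + 2) : ℕ) : ℤ) = 2 ^ (b + 2) := by push_cast; rfl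
      rw [e]
      exact h2
    · have h1 : 3 * w ^ 2 < x.1 * 2 ^ (b + 3) := (Finset.mem_filter.1 hw).2.2
      have h2 : j + 3 * w ^ 2 = x.1 * 2 ^ (b + 3) := by omega
      rw [h2, Nat.mul_div_cancel _ (by positivity)]
      exact Prod.ext rfl hn.symm
  exact (Finset.card_le_card hsub).trans (Finset.card_image_le.trans Finset.card_le_four)

theorem RTY (hSQ : SQ_stmt) : RTY_stmt := by
  intro a X D ha hD
  classical
  let Z : ℕ := 2 * 4 ^ a * X
  let E : Finset ℕ := (range (Z + 1)).filter fun n => Even (Fintype.card (Nat.Partition n))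
  let G : ℕ → ℕ → ℕ → Finset (ℕ × ℕ) := fun s d M =>
    ((PK a) ×ˢ range (X + 1)).filter fun x => 24 * x.2 + 3 = M + 2 ^ a ∧
      ∃ w ∈ ws (x.1 * 2 ^ a), x.1 * 2 ^ a - 3 * w ^ 2 = d ^ 2 * (24 * s - 1) / M
  let B : Finset (ℕ × ℕ) := E.biUnion fun s => ({1, r0 a} : Finset ℕ).biUnion fun d =>
    (d ^ 2 * (24 * s - 1)).divisors.biUnion fun M => G s d M
  have h8 : 8 ≤ 2 ^ a := by
    calc 8 = 2 ^ 3 := by norm_num
      _ ≤ 2 ^ a := Nat.pow_le_pow_right (by norm_num) ha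
  have hr0 : r0 a = 19 ∨ r0 a = 11 := by
    unfold r0; split_ifs <;> simp
  have hr0p : (r0 a).Prime := by
    rcases hr0 with h | h <;> rw [h] <;> norm_num
  have hsub : {x : ℕ × ℕ | x.1 ∈ PK a ∧ x.2 ≤ X ∧ 2 ^ a < 24 * x.2 + 3 ∧ EvR a x.1 x.2} ⊆
      (B : Set (ℕ × ℕ)) := by
    rintro ⟨k, n⟩ ⟨hk, hn, hM, w, hw, d, hd, hd2, h24, hev⟩
    simp only at hk hn hM hw hd hd2 h24 hev
    obtain ⟨M, hMe⟩ : ∃ M, 24 * n + 3 = M + 2 ^ a := ⟨24 * n + 3 - 2 ^ a, by omega⟩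
    have hMs : 24 * n + 3 - 2 ^ a = M := by omega
    rw [hMs] at hd2 h24 hev
    have hM0 : 0 < M := by omega
    have hw3 : 3 * w ^ 2 < k * 2 ^ a := (Finset.mem_filter.1 hw).2.2
    have hw1 : w % 2 = 1 := (Finset.mem_filter.1 hw).2.1
    set j := k * 2 ^ a - 3 * w ^ 2 with hj
    have hj0 : 0 < j := by omega
    obtain ⟨t, ht⟩ := hd2
    have hdr : d ∣ r0 a := (Nat.dvd_of_mem_divisors hd).trans (Nat.gcd_dvd_right _ _)
    have hd' : d = 1 ∨ d = r0 a := (Nat.dvd_prime hr0p).1 hdr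
    have hd0 : 0 < d := by
      rcases hd' with h | h
      · omega
      · rw [h]; exact hr0p.pos
    have hdd : 0 < d ^ 2 := by positivity
    rw [ht, Nat.mul_div_cancel_left _ hdd] at h24 hev
    obtain ⟨s, hs⟩ := h24
    rw [hs, Nat.mul_div_cancel_left _ (by norm_num)] at hev
    have hts : t = 24 * s - 1 := by omega
    rw [hts] at ht
    have hk2 : k ≤ 2 * 2 ^ a := (Finset.mem_Ioc.1 (Finset.mem_filter.1 hk).1).2
    have hsZ : s ≤ Z := by
      have h1 : t ≤ j * M := by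
        have : t ≤ d ^ 2 * t := Nat.le_mul_of_pos_left t hdd
        rw [hts] at this ⊢
        omega
      have h2 : j ≤ 2 * 4 ^ a := by
        have h3 : k * 2 ^ a ≤ 2 * 2 ^ a * 2 ^ a := Nat.mul_le_mul_right _ hk2
        have h4 : 2 * 2 ^ a * 2 ^ a = 2 * 4 ^ a := by
          rw [mul_assoc, ← mul_pow]
          norm_num
        omega
      have h5 : M ≤ 24 * X := by omega
      have h6 : j * M ≤ 2 * 4 ^ a * (24 * X) := Nat.mul_le_mul h2 h5
      have h7 : 2 * 4 ^ a * (24 * X) = 24 * Z := by simp only [Z]; ring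
      omega
    simp only [B, Finset.coe_biUnion, Set.mem_iUnion, Finset.mem_coe]
    refine ⟨s, ?_, d, ?_, M, ?_, ?_⟩
    · exact Finset.mem_filter.2 ⟨Finset.mem_range.2 (by omega), hev⟩
    · simp only [Finset.mem_insert, Finset.mem_singleton]
      exact hd'
    · rw [Nat.mem_divisors]
      refine ⟨⟨j, ?_⟩, ?_⟩
      · rw [← ht, mul_comm]
      · rw [← ht]
        positivity
    · refine Finset.mem_filter.2 ⟨Finset.mem_product.2 ⟨hk, Finset.mem_range.2 (by simp only; omega)⟩, hMe,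
        w, hw, ?_⟩
      simp only
      rw [← hj, ← ht, Nat.mul_div_cancel _ hM0]
  have hcardG : ∀ s d M, #(G s d M) ≤ 4 := by
    intro s d M
    refine RTY_four hSQ a (d ^ 2 * (24 * s - 1) / M) ((M + 2 ^ a - 3) / 24) ha _ ?_
    intro x hx
    obtain ⟨h1, h2, h3⟩ := Finset.mem_filter.1 hx
    refine ⟨(Finset.mem_product.1 h1).1, by omega, h3⟩
  have hcard : #B ≤ #E * (2 * (D * 4)) := by
    refine Finset.card_biUnion_le_card_mul _ _ _ fun s hs => ?_
    refine (Finset.card_biUnion_le_card_mul _ _ (D * 4) fun d hd => ?_).trans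
      (Nat.mul_le_mul_right _ Finset.card_le_two)
    refine (Finset.card_biUnion_le_card_mul _ _ 4 fun M _ => hcardG s d M).trans
      (Nat.mul_le_mul_right _ ?_)
    rcases Nat.eq_zero_or_pos (d ^ 2 * (24 * s - 1)) with h0 | h0
    · rw [h0]; simp
    · refine hD _ h0 ?_
      have hsZ : s ≤ Z := by
        have := Finset.mem_range.1 (Finset.mem_filter.1 hs).1
        omega
      have hd19 : d ≤ 19 := by
        simp only [Finset.mem_insert, Finset.mem_singleton] at hd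
        rcases hd with h | h <;> rcases hr0 with h' | h' <;> omega
      have h1 : d ^ 2 ≤ 361 := by
        calc d ^ 2 ≤ 19 ^ 2 := Nat.pow_le_pow_left hd19 2
          _ = 361 := by norm_num
      calc d ^ 2 * (24 * s - 1) ≤ 361 * (24 * Z) := Nat.mul_le_mul h1 (by omega)
        _ = 17328 * (4 ^ a * X) := by simp only [Z]; ring
  calc Set.ncard {x : ℕ × ℕ | x.1 ∈ PK a ∧ x.2 ≤ X ∧ 2 ^ a < 24 * x.2 + 3 ∧ EvR a x.1 x.2}
      ≤ Set.ncard (B : Set (ℕ × ℕ)) := Set.ncard_le_ncard hsub (Finset.finite_toSet B)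
    _ = #B := Set.ncard_coe_finset B
    _ ≤ #E * (2 * (D * 4)) := hcard
    _ = 8 * D * sE (2 * 4 ^ a * X) := by
      have : sE (2 * 4 ^ a * X) = #E := by
        unfold sE
        apply congrArg
        ext n
        simp [E, Z]
      rw [this]; ring

end Pool.Agent.EP
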